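import Pool.Agent.H550R2.Cl.Exh

set_option autoImplicit false
set_option linter.unusedSectionVars false

/-! Vertex cover on subgraphs of a fixed sparse graph: symmetric semidefinite programs are not
better than exhaustive search. -/

namespace Pool.Agent.Results.MP_c578c8_lc.ExhaustiveSearchSDP

open Pool.Agent.H550R2.Lift Pool.Agent.H550R2.Cl

/-- For every `ε > 0` there are a constant `C` and, for all large `r`, a graph `H` on `r` vertices
whose blow-up (four copies of each vertex) has at most `C r` edges, and two subgraphs of the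
blow-up, one with a vertex cover of `3 r` vertices and one all of whose vertex covers have
`(7/2 - ε) r` vertices, such that every semidefinite program of order at most `2 ^ (r / C)` that
reads one bit per edge of the blow-up and is symmetric under all even permutations of the four
copies of each vertex accepts both subgraphs or none. On the other hand exhaustive search over
the `n` input bits is such a program of order `2 ^ n` for the exact problem. -/
theorem result :
    (∀ ε : ℝ, 0 < ε → ∃ C : ℕ, 0 < C ∧ ∀ r : ℕ, C ≤ r →
      ∃ H : SimpleGraph (Fin r), (blow H).edgeSet.ncard ≤ C * r ∧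
      ∃ G₀ G₁ : SimpleGraph (Fin r × (Fin 2 → ZMod 2)), G₀ ≤ blow H ∧ G₁ ≤ blow H ∧
        SmallVC G₀ (3 * r) ∧ LargeVC G₁ ((7 / 2 - ε) * r) ∧
        ∀ (D : Type) [Fintype D] [DecidableEq D] (P : SDP (blow H).edgeSet D), EvenSym P →
          Fintype.card D ≤ 2 ^ (r / C) → (P.Acc (bvec H G₀) ↔ P.Acc (bvec H G₁))) ∧
    (∀ (r : ℕ) (H : SimpleGraph (Fin r)) (k : ℝ),
      ∃ (D : Type) (_ : Fintype D) (_ : DecidableEq D) (P : SDP (blow H).edgeSet D),
        Fintype.card D = 2 ^ (blow H).edgeSet.ncard ∧ (∀ π, ∃ O, P.IsAut (epm H π) O) ∧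
        ∀ G : SimpleGraph (Fin r × (Fin 2 → ZMod 2)), G ≤ blow H →
          (P.Acc (bvec H G) ↔ SmallVC G k)) :=
  ⟨vc_univ, fun _ H k => exh_upper H k⟩

end Pool.Agent.Results.MP_c578c8_lc.ExhaustiveSearchSDP
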