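import Pool.Agent.H620R2.GaugeX.KeyX

/-!
# How many oracles put `PSPACE` into `NP` but not into `P`?

For every gauge `f` the following are equivalent: for every `ε > 0` there are infinitely many `N`
with `f N ≤ 2 ^ ((log N) ^ ε)`; the oracles with `P^A ≠ NP^A = PSPACE^A` are a null set for `f`;
the oracles with `P^A ≠ ZPP^A = PSPACE^A` and `EXP^A ⊆ ZPP^A` are a null set for `f`. The same
holds for every set of oracles between the last one and the set of the `A` with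
`NP^A ⊆ coNP^A/poly` or `EXP^A ⊆ PSPACE^A/poly`.
-/

namespace Pool.Agent.Results.MP_c578c8_lc.GaugeThreshold

open Pool.Agent.NPC Pool.Agent.H620R2.Gauge

theorem result (f : ℕ → ℝ) :
    (∀ O : Set Oracle,
      (∀ A : Oracle, (∀ L, IsZPP A L ↔ IsPSPACE A L) → (∀ L, IsEXP A L → IsZPP A L) →
        (∃ L, IsZPP A L ∧ ¬ IsP A L) → A ∈ O) →
      (∀ A ∈ O, (∀ L, IsNP A L → WithAdvice (IsNP A) Lᶜ) ∨
        (∀ L, IsEXP A L → WithAdvice (IsPSPACE A) L)) →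
      (Null f O ↔
        ∀ ε : ℝ, 0 < ε → ∃ᶠ N : ℕ in Filter.atTop, f N ≤ 2 ^ (Real.logb 2 N) ^ ε)) ∧
    (Null f {A : Oracle | (∃ L, IsPSPACE A L ∧ ¬ IsP A L) ∧ (∀ L, IsPSPACE A L → IsNP A L)} ↔
      ∀ ε : ℝ, 0 < ε → ∃ᶠ N : ℕ in Filter.atTop, f N ≤ 2 ^ (Real.logb 2 N) ^ ε) ∧
    (Null f {A : Oracle | (∃ L, IsZPP A L ∧ ¬ IsP A L) ∧ (∀ L, IsZPP A L ↔ IsPSPACE A L) ∧
        ∀ L, IsEXP A L → IsZPP A L} ↔
      ∀ ε : ℝ, 0 < ε → ∃ᶠ N : ℕ in Filter.atTop, f N ≤ 2 ^ (Real.logb 2 N) ^ ε) := by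
  have key : ∀ O : Set Oracle,
      (∀ A : Oracle, (∀ L, IsZPP A L ↔ IsPSPACE A L) → (∀ L, IsEXP A L → IsZPP A L) →
        (∃ L, IsZPP A L ∧ ¬ IsP A L) → A ∈ O) →
      (∀ A ∈ O, (∀ L, IsNP A L → WithAdvice (IsNP A) Lᶜ) ∨
        (∀ L, IsEXP A L → WithAdvice (IsPSPACE A) L)) →
      (Null f O ↔
        ∀ ε : ℝ, 0 < ε → ∃ᶠ N : ℕ in Filter.atTop, f N ≤ 2 ^ (Real.logb 2 N) ^ ε) := by
    intro O h1 h2
    refine keyX f O (fun A hA hd => h1 A (fun L => ⟨fun h => h.isNP.isPSPACE, fun h => ?_⟩)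
      (fun L hL => hA L (Or.inl hL)) hd) h2
    exact hA L (Or.inr h)
  refine ⟨key, key _ ?_ ?_, key _ ?_ ?_⟩
  · rintro A h1 h2 ⟨L, h3, h4⟩
    exact ⟨⟨L, (h1 L).1 h3, h4⟩, fun L hL => ((h1 L).2 hL).isNP⟩
  · rintro A ⟨_, hA⟩
    refine Or.inl fun L hL => ?_
    exact (hA _ hL.isPSPACE.compl).withAdvice
  · rintro A h1 h2 h3
    exact ⟨h3, h1, h2⟩
  · rintro A ⟨_, h1, h2⟩
    exact Or.inr fun L hL => ((h1 L).1 (h2 L hL)).withAdvice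

end Pool.Agent.Results.MP_c578c8_lc.GaugeThreshold
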