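import Pool.Agent.H694R2.QM.Slices

/-!
# Refutations of quantified Boolean formulas with monotone lines

`NP = PSPACE` holds if and only if there is a proof system for quantified Boolean formulas in which
all false formulas have refutations of polynomial size. The formula considered here is
`∃ x ∀ z ∃ y ∀ v φ`, where `x` codes a graph with `N` bits, `z` is a single bit and `φ` says that
`y` is a half-clique of `x` if `z = 0`, and `v` is not a half-clique of `x` if `z = 1`
(`HCMatrix N`); it is false, and the universal player has to answer `x` by `z = 1` if and only if
`x` has a half-clique.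

Refutations are very generous: every sound inference is free (`Follows`: including all sound
propositional inferences, universal reductions of `v`, and all inferences that are sound for the
quantified blocks `∃ y ∀ v`), there is no bound on the number of premises, and the lines are
the functions computed by the gates of a circuit. The only rule that counts is the universal
reduction of `z`, which is applied in rounds (`Level`). The circuit that computes the lines consists
of AND and OR gates over the variables `x i` (not negated), the literals of all other variables, and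
of further gates (set `P` of lists of their inputs) of any fan-in computing arbitrary functions. So
without further gates all lines are monotone in `x`.

* With `K` rounds and size `s < 2 ^ t / (3 K + 5)` (gates plus inputs of further gates), the
  product `(2 K + 3) * ∏ (w + 1)`, over the numbers `w` of inputs of the further gates, is larger
  than `N / (2 (1600 t ^ 10) ^ 2)`. In particular refutations of polynomial size with monotone
  lines need `N / polylog N` rounds, and with `N ^ (1 - ε)` rounds the size is at least
  `2 ^ (c * N ^ (ε / 20))` for large `N`.
* Conversely `N + 1` rounds and monotone lines suffice for polynomial size if the half-clique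
  problem (which is `NP`-complete) has polynomial-size circuits, and from every refutation one
  obtains a circuit for the half-clique problem of about `3 K` times its size. So superpolynomial
  lower bounds for `N + 1` rounds are the same as `NP ⊄ P/poly`.
-/

namespace Pool.Agent.Results.MP_c578c8_lc.MonotoneLines

open Pool.Agent.H694R2.QM Pool.Agent.H520R2.HC

theorem result :
    (∀ (N : ℕ) (x : Fin N → Bool), ∃ z, ∀ y, ∃ v, ¬ HCMatrix N ⟨x, z, y, v⟩) ∧
    (∀ (N t K : ℕ) (P : List (List (Asg N (Nat.sqrt N) → Bool)))
      (L : List (Asg N (Nat.sqrt N) → Bool)), 2 ≤ t →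
      Circ (Lits N (Nat.sqrt N)) P L → Refutes (HCMatrix N) L K →
      (3 * K + 5) * (L.length + (P.map List.length).sum + 1) < 2 ^ t →
      N / (1600 * t ^ 10) ^ 2 < 2 * (2 * K + 3) * (P.map fun fs => fs.length + 1).prod) ∧
    (∀ (N : ℕ) (P : List (List ((Fin N → Bool) → Bool))) (L : List ((Fin N → Bool) → Bool)),
      Circ (Vars N) P L → (∀ fs ∈ P, fs.length ≤ 2) →
      (∃ h ∈ L, ∀ x, h x = true ↔ List.ofFn x ∈ HalfClique) →
      ∃ L', Circ (Lits N (Nat.sqrt N)) [] L' ∧ Refutes (HCMatrix N) L' (N + 1) ∧
        L'.length ≤ 12 * (N + 1) * L.length + 8 * (N + 1) ^ 3) ∧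
    (∀ (N K : ℕ) (P : List (List (Asg N (Nat.sqrt N) → Bool)))
      (L : List (Asg N (Nat.sqrt N) → Bool)),
      Circ (Lits N (Nat.sqrt N)) P L → (∀ fs ∈ P, fs.length ≤ 2) → Refutes (HCMatrix N) L K →
      ∃ P' L', Circ (Vars N) P' L' ∧ (∀ fs ∈ P', fs.length ≤ 2) ∧
        (∃ h ∈ L', ∀ x, h x = true ↔ List.ofFn x ∈ HalfClique) ∧
        L'.length ≤ (3 * K + 5) * L.length + 4 * (K + 1)) := by
  refine ⟨hc_false, fun N t K P L ht hL hR hs => lower N t K ht P L hL hR hs, ?_, ?_⟩
  · rintro N P L hL hP ⟨h, hh, hx⟩
    have : h = hc N := by
      classical
      funext x
      unfold hc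
      rw [Bool.eq_iff_iff, hx, decide_eq_true_eq]
    rw [this] at hh
    exact refutation_of_circuit N P L hL hP hh
  · intro N K P L hL hP hR
    obtain ⟨P', L', h1, h2, h3, h4⟩ := circuit_of_refutation N K P L hL hR hP
    refine ⟨P', L', h1, h2, ⟨_, h3, fun x => ?_⟩, h4⟩
    classical
    unfold hc
    rw [decide_eq_true_eq]

end Pool.Agent.Results.MP_c578c8_lc.MonotoneLines
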