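import Pool.Agent.H564R3.RN.TspTS

/-!
Coins do not help dynamic programs with little space: the travelling salesman problem.
-/

set_option autoImplicit false

namespace Pool.Agent.Results.MP_c578c8_lc.RandomTimeSpace

open Pool.Agent.H564R3.PW (Instr)
open Pool.Agent.H564R3.RD (RandomTSP)

/-- **Time-space trade-off for randomised dynamic programs.** Randomised (min,+) programs with
two-sided error `e`, at most `T` instructions and the registers `ρ` which compute the length of a
shortest tour need time about `4 ^ n` unless they have exponentially many registers. -/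
theorem result (n : ℕ) (ρ : Type) [Fintype ρ] [DecidableEq ρ] (Λ : Type) [Fintype Λ] (e : ℝ)
    (q : Λ → ℝ)
    (p : Λ → List (Instr (Tropical (WithTop ℝ)) (Fin (n + 2) × Fin (n + 2)) ρ)) (o : ρ)
    (h : RandomTSP e q p o) (T : ℕ) (hT : ∀ l, (p l).length ≤ T) :
    (1 - 2 * e) * (4 : ℝ) ^ (n + 1) ≤ ((n : ℝ) + 2) * (T : ℝ) *
      (2 : ℝ) ^ (5 * Real.sqrt (((n : ℝ) + 1) *
        Real.logb 2 (2 * ((n : ℝ) + 2) ^ 2 * (Fintype.card ρ : ℝ))) + 7) :=
  Pool.Agent.H564R3.RN.tsp_ts e q p o h T hT

end Pool.Agent.Results.MP_c578c8_lc.RandomTimeSpace
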